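import Mathlib

namespace Pool.Agent.Results.MP_1c2560_pr.PerimeterVariance

open MeasureTheory ProbabilityTheory Filter Topology Set
open scoped InnerProductSpace ENNReal

/-- The Euclidean plane. -/
abbrev Plane : Type := EuclideanSpace ℝ (Fin 2)

/-- The unit vector `(cos θ, sin θ)`. -/
noncomputable def dir (θ : ℝ) : Plane := !₂[Real.cos θ, Real.sin θ]

/-- The support function `h_K(θ) = sup {x · (cos θ, sin θ) : x ∈ K}` of `K`. -/
noncomputable def supportFn (K : Set Plane) (θ : ℝ) : ℝ :=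
  sSup ((fun x : Plane => ⟪x, dir θ⟫_ℝ) '' K)

/-- The perimeter of a nonempty compact convex set `K`, by Cauchy's formula
`∫_0^{2π} h_K(θ) dθ`. For a segment this is twice its length (`perimeter_segment`), for a triangle
it is the sum of the side lengths (`perimeter_triangle`). -/
noncomputable def perimeter (K : Set Plane) : ℝ :=
  ∫ θ in (0 : ℝ)..(2 * Real.pi), supportFn K θ

/-- The random walk `S_n = Z_0 + ⋯ + Z_{n-1}`, `S_0 = 0`. -/
noncomputable def walk {Ω : Type} (Z : ℕ → Ω → Plane) (n : ℕ) (ω : Ω) : Plane :=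
  ∑ k ∈ Finset.range n, Z k ω

/-- The perimeter `L_n` of the convex hull of `{S_0, …, S_n}`. -/
noncomputable def hullPerimeter {Ω : Type} (Z : ℕ → Ω → Plane) (n : ℕ) (ω : Ω) : ℝ :=
  perimeter (convexHull ℝ ((fun k => walk Z k ω) '' Set.Iic n))

/-- The drift `μ = 𝔼 Z`. -/
noncomputable def drift {Ω : Type} [MeasurableSpace Ω] (Z : Ω → Plane) (P : Measure Ω) : Plane :=
  ∫ ω, Z ω ∂P

/-- The unit vector `μ / ‖μ‖` in the direction of the drift. -/
noncomputable def driftDir {Ω : Type} [MeasurableSpace Ω] (Z : Ω → Plane) (P : Measure Ω) :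
    Plane := ‖drift Z P‖⁻¹ • drift Z P

/-- The rotation by a right angle. -/
noncomputable def rot (x : Plane) : Plane := !₂[-(x 1), x 0]

/-- `σ_∥² = 𝔼[((Z - μ) · μ̂)²]`. -/
noncomputable def sigmaParSq {Ω : Type} [MeasurableSpace Ω] (Z : Ω → Plane) (P : Measure Ω) : ℝ :=
  ∫ ω, ⟪Z ω - drift Z P, driftDir Z P⟫_ℝ ^ 2 ∂P

/-- `σ_⊥² = 𝔼[((Z - μ) · μ̂_⊥)²]`. -/
noncomputable def sigmaPerpSq {Ω : Type} [MeasurableSpace Ω] (Z : Ω → Plane) (P : Measure Ω) :
    ℝ :=
  ∫ ω, ⟪Z ω - drift Z P, rot (driftDir Z P)⟫_ℝ ^ 2 ∂P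

/-! ### Geometry -/

lemma inner_dir (x : Plane) (θ : ℝ) : ⟪x, dir θ⟫_ℝ = x 0 * Real.cos θ + x 1 * Real.sin θ := by
  simp [dir, PiLp.inner_apply, Fin.sum_univ_two]
  ring

lemma continuous_inner_dir (x : Plane) : Continuous fun θ => ⟪x, dir θ⟫_ℝ := by
  simp only [inner_dir]
  fun_prop

section finite

variable {ι : Type*} (s : Finset ι) (hs : s.Nonempty) (f : ι → Plane)

lemma inner_le_of_mem_hull {c θ : ℝ} (hc : ∀ i ∈ s, ⟪f i, dir θ⟫_ℝ ≤ c) {x : Plane}
    (hx : x ∈ convexHull ℝ (f '' s)) : ⟪x, dir θ⟫_ℝ ≤ c := by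
  have hconv : Convex ℝ {x : Plane | ⟪x, dir θ⟫_ℝ ≤ c} := by
    apply convex_halfSpace_le
    constructor
    · intro x y
      exact inner_add_left x y _
    · intro c x
      simp [inner_smul_left]
  have hsub : convexHull ℝ (f '' s) ⊆ {x : Plane | ⟪x, dir θ⟫_ℝ ≤ c} := by
    apply convexHull_min _ hconv
    rintro _ ⟨i, hi, rfl⟩
    exact hc i hi
  exact hsub hx

include hs in
lemma supportFn_hull (θ : ℝ) :
    supportFn (convexHull ℝ (f '' s)) θ = s.sup' hs (fun i => ⟪f i, dir θ⟫_ℝ) := by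
  have hub : ∀ x ∈ convexHull ℝ (f '' s), ⟪x, dir θ⟫_ℝ ≤ s.sup' hs (fun i => ⟪f i, dir θ⟫_ℝ) :=
    fun x hx => inner_le_of_mem_hull s f
      (fun i hi => Finset.le_sup' (fun i => ⟪f i, dir θ⟫_ℝ) hi) hx
  apply le_antisymm
  · apply csSup_le
    · obtain ⟨i, hi⟩ := hs
      exact ⟨_, f i, subset_convexHull ℝ _ ⟨i, hi, rfl⟩, rfl⟩
    · rintro _ ⟨x, hx, rfl⟩
      exact hub x hx
  · apply Finset.sup'_le
    intro i hi
    apply le_csSup
    · refine ⟨s.sup' hs (fun i => ⟪f i, dir θ⟫_ℝ), ?_⟩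
      rintro _ ⟨x, hx, rfl⟩
      exact hub x hx
    · exact ⟨f i, subset_convexHull ℝ _ ⟨i, hi, rfl⟩, rfl⟩

include hs in
lemma perimeter_hull : perimeter (convexHull ℝ (f '' s)) =
    ∫ θ in (0 : ℝ)..(2 * Real.pi), s.sup' hs (fun i => ⟪f i, dir θ⟫_ℝ) := by
  simp only [perimeter, supportFn_hull s hs f]

end finite

/-! ### Integrals over the circle -/

lemma integral_abs_cos : ∫ θ in (0 : ℝ)..(2 * Real.pi), |Real.cos θ| = 4 := by
  have hper : Function.Periodic (fun θ => |Real.cos θ|) Real.pi := by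
    intro θ
    simp [Real.cos_add_pi]
  have hint : ∀ a b : ℝ, IntervalIntegrable (fun θ => |Real.cos θ|) volume a b := fun a b =>
    (Real.continuous_cos.abs).intervalIntegrable a b
  have h1 : ∫ θ in (0 : ℝ)..Real.pi, |Real.cos θ| = 2 := by
    have h := hper.intervalIntegral_add_eq 0 (-(Real.pi / 2))
    rw [zero_add] at h
    rw [h]
    have h2 : -(Real.pi / 2) + Real.pi = Real.pi / 2 := by ring
    rw [h2]
    have h3 : ∫ θ in (-(Real.pi / 2))..(Real.pi / 2), |Real.cos θ|
        = ∫ θ in (-(Real.pi / 2))..(Real.pi / 2), Real.cos θ := by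
      apply intervalIntegral.integral_congr
      intro θ hθ
      rw [Set.uIcc_of_le (by linarith [Real.pi_pos])] at hθ
      exact abs_of_nonneg (Real.cos_nonneg_of_mem_Icc hθ)
    rw [h3, integral_cos]
    simp
    norm_num
  have h4 : ∫ θ in (Real.pi)..(2 * Real.pi), |Real.cos θ| = 2 := by
    have h := hper.intervalIntegral_add_eq Real.pi 0
    rw [zero_add, h1] at h
    rwa [two_mul]
  rw [← intervalIntegral.integral_add_adjacent_intervals (hint 0 Real.pi)
    (hint Real.pi (2 * Real.pi)), h1, h4]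
  norm_num

lemma integral_abs_inner (x : Plane) :
    ∫ θ in (0 : ℝ)..(2 * Real.pi), |⟪x, dir θ⟫_ℝ| = 4 * ‖x‖ := by
  -- polar coordinates for x
  set z : ℂ := ⟨x 0, x 1⟩ with hz
  have hnorm : ‖z‖ = ‖x‖ := by
    rw [EuclideanSpace.norm_eq, Fin.sum_univ_two, Complex.norm_def, Complex.normSq_apply]
    simp [hz, sq]
  have h0 : x 0 = ‖x‖ * Real.cos (Complex.arg z) := by
    rw [← hnorm, Complex.norm_mul_cos_arg]
  have h1 : x 1 = ‖x‖ * Real.sin (Complex.arg z) := by
    rw [← hnorm, Complex.norm_mul_sin_arg]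
  have h2 : ∀ θ, |⟪x, dir θ⟫_ℝ| = ‖x‖ * |Real.cos (θ - Complex.arg z)| := by
    intro θ
    rw [inner_dir, Real.cos_sub]
    conv_lhs => rw [h0, h1]
    rw [← abs_of_nonneg (norm_nonneg x), ← abs_mul, abs_of_nonneg (norm_nonneg x)]
    congr 1
    ring
  simp only [h2]
  rw [intervalIntegral.integral_const_mul]
  have hper : Function.Periodic (fun θ => |Real.cos θ|) (2 * Real.pi) := by
    intro θ
    simp [Real.cos_add_two_pi]
  have h3 : ∫ θ in (0 : ℝ)..(2 * Real.pi), |Real.cos (θ - Complex.arg z)| = 4 := by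
    rw [intervalIntegral.integral_comp_sub_right (fun θ => |Real.cos θ|)]
    have h := hper.intervalIntegral_add_eq (0 - Complex.arg z) 0
    rw [zero_add, integral_abs_cos] at h
    rw [← h]
    congr 1
    ring
  rw [h3]
  ring

lemma integral_inner (x : Plane) : ∫ θ in (0 : ℝ)..(2 * Real.pi), ⟪x, dir θ⟫_ℝ = 0 := by
  simp only [inner_dir]
  rw [intervalIntegral.integral_add (by apply Continuous.intervalIntegrable; fun_prop)
    (by apply Continuous.intervalIntegrable; fun_prop)]
  simp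


/-! ### Bounds and sanity checks for the perimeter -/

lemma max_eq_half (a b : ℝ) : max a b = (a + b + |a - b|) / 2 := by
  rcases le_total a b with h | h
  · rw [max_eq_right h, abs_of_nonpos (by linarith)]
    ring
  · rw [max_eq_left h, abs_of_nonneg (by linarith)]
    ring

lemma continuous_sup_inner {ι : Type*} (s : Finset ι) (hs : s.Nonempty) (f : ι → Plane) :
    Continuous fun θ => s.sup' hs (fun i => ⟪f i, dir θ⟫_ℝ) :=
  Continuous.finset_sup'_apply hs fun i _ => continuous_inner_dir (f i)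

lemma continuous_abs_inner_dir (x : Plane) : Continuous fun θ => |⟪x, dir θ⟫_ℝ| :=
  (continuous_inner_dir x).abs

/-- The perimeter is at least twice the distance of any two points. -/
lemma two_mul_dist_le {ι : Type*} (s : Finset ι) (f : ι → Plane) {i j : ι} (hi : i ∈ s)
    (hj : j ∈ s) : 2 * ‖f i - f j‖ ≤ perimeter (convexHull ℝ (f '' s)) := by
  rw [perimeter_hull s ⟨i, hi⟩ f]
  have h1 : ∫ θ in (0 : ℝ)..(2 * Real.pi),
      (⟪f i, dir θ⟫_ℝ + ⟪f j, dir θ⟫_ℝ + |⟪f i - f j, dir θ⟫_ℝ|) / 2 = 2 * ‖f i - f j‖ := by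
    rw [intervalIntegral.integral_div, intervalIntegral.integral_add,
      intervalIntegral.integral_add, integral_inner, integral_inner, integral_abs_inner]
    · ring
    · exact (continuous_inner_dir _).intervalIntegrable _ _
    · exact (continuous_inner_dir _).intervalIntegrable _ _
    · exact ((continuous_inner_dir _).add (continuous_inner_dir _)).intervalIntegrable _ _
    · exact (continuous_abs_inner_dir _).intervalIntegrable _ _
  rw [← h1]
  apply intervalIntegral.integral_mono_on (by positivity)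
  · apply Continuous.intervalIntegrable
    exact (((continuous_inner_dir _).add (continuous_inner_dir _)).add
      (continuous_abs_inner_dir _)).div_const _
  · exact (continuous_sup_inner s _ f).intervalIntegrable _ _
  · intro θ _
    rw [inner_sub_left, ← max_eq_half]
    exact max_le (Finset.le_sup' (fun i => ⟪f i, dir θ⟫_ℝ) hi)
      (Finset.le_sup' (fun i => ⟪f i, dir θ⟫_ℝ) hj)

/-- A set of points in the rectangle `[0, A] × [-M, M]` has a hull of perimeter at most
`2 A + 4 M`. -/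
lemma perimeter_le {ι : Type*} (s : Finset ι) (hs : s.Nonempty) (f : ι → Plane) {A M : ℝ}
    (h0 : ∀ i ∈ s, 0 ≤ f i 0) (hA : ∀ i ∈ s, f i 0 ≤ A) (hM : ∀ i ∈ s, |f i 1| ≤ M) :
    perimeter (convexHull ℝ (f '' s)) ≤ 2 * A + 4 * M := by
  rw [perimeter_hull s hs f]
  set e0 : Plane := !₂[1, 0] with he0
  set e1 : Plane := !₂[0, 1] with he1
  have hn0 : ‖e0‖ = 1 := by simp [he0, EuclideanSpace.norm_eq, Fin.sum_univ_two]
  have hn1 : ‖e1‖ = 1 := by simp [he1, EuclideanSpace.norm_eq, Fin.sum_univ_two]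
  have hi0 : ∀ θ, ⟪e0, dir θ⟫_ℝ = Real.cos θ := by
    intro θ
    simp [inner_dir, he0]
  have hi1 : ∀ θ, ⟪e1, dir θ⟫_ℝ = Real.sin θ := by
    intro θ
    simp [inner_dir, he1]
  have h1 : ∫ θ in (0 : ℝ)..(2 * Real.pi),
      (A * ((⟪e0, dir θ⟫_ℝ + |⟪e0, dir θ⟫_ℝ|) / 2) + M * |⟪e1, dir θ⟫_ℝ|) = 2 * A + 4 * M := by
    rw [intervalIntegral.integral_add, intervalIntegral.integral_const_mul,
      intervalIntegral.integral_const_mul, intervalIntegral.integral_div,
      intervalIntegral.integral_add, integral_inner, integral_abs_inner, integral_abs_inner, hn0,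
      hn1]
    · ring
    · exact (continuous_inner_dir _).intervalIntegrable _ _
    · exact (continuous_abs_inner_dir _).intervalIntegrable _ _
    · apply Continuous.intervalIntegrable
      exact continuous_const.mul (((continuous_inner_dir _).add
        (continuous_abs_inner_dir _)).div_const _)
    · apply Continuous.intervalIntegrable
      exact continuous_const.mul (continuous_abs_inner_dir _)
  rw [← h1]
  apply intervalIntegral.integral_mono_on (by positivity)
  · exact (continuous_sup_inner s _ f).intervalIntegrable _ _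
  · apply Continuous.intervalIntegrable
    exact (continuous_const.mul (((continuous_inner_dir _).add
      (continuous_abs_inner_dir _)).div_const _)).add
      (continuous_const.mul (continuous_abs_inner_dir _))
  · intro θ _
    apply Finset.sup'_le
    intro i hi
    rw [inner_dir, hi0, hi1]
    have ha : f i 0 * Real.cos θ ≤ A * ((Real.cos θ + |Real.cos θ|) / 2) := by
      have h2 : Real.cos θ ≤ (Real.cos θ + |Real.cos θ|) / 2 := by
        linarith [le_abs_self (Real.cos θ)]
      have h3 : 0 ≤ (Real.cos θ + |Real.cos θ|) / 2 := by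
        linarith [neg_abs_le (Real.cos θ)]
      exact (mul_le_mul_of_nonneg_left h2 (h0 i hi)).trans
        (mul_le_mul_of_nonneg_right (hA i hi) h3)
    have hb : f i 1 * Real.sin θ ≤ M * |Real.sin θ| := by
      calc f i 1 * Real.sin θ ≤ |f i 1 * Real.sin θ| := le_abs_self _
        _ = |f i 1| * |Real.sin θ| := abs_mul _ _
        _ ≤ M * |Real.sin θ| := mul_le_mul_of_nonneg_right (hM i hi) (abs_nonneg _)
    exact add_le_add ha hb

/-- Sanity check: the perimeter of a segment is twice its length. -/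
lemma perimeter_segment (a b : Plane) : perimeter (segment ℝ a b) = 2 * dist a b := by
  rw [← convexHull_pair]
  have h : ({a, b} : Set Plane) =
      (fun i : Fin 2 => ![a, b] i) '' (Finset.univ : Finset (Fin 2)) := by
    ext x
    simp [eq_comm, or_comm]
  rw [h, perimeter_hull Finset.univ Finset.univ_nonempty]
  have h2 : ∀ θ, (Finset.univ : Finset (Fin 2)).sup' Finset.univ_nonempty
      (fun i => ⟪![a, b] i, dir θ⟫_ℝ) = (⟪a, dir θ⟫_ℝ + ⟪b, dir θ⟫_ℝ + |⟪a - b, dir θ⟫_ℝ|) / 2 := by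
    intro θ
    rw [inner_sub_left, ← max_eq_half]
    apply le_antisymm
    · apply Finset.sup'_le
      intro i _
      fin_cases i
      · exact le_max_left _ _
      · exact le_max_right _ _
    · exact max_le
        (Finset.le_sup' (fun i => ⟪![a, b] i, dir θ⟫_ℝ) (Finset.mem_univ (0 : Fin 2)))
        (Finset.le_sup' (fun i => ⟪![a, b] i, dir θ⟫_ℝ) (Finset.mem_univ (1 : Fin 2)))
  simp only [h2]
  rw [intervalIntegral.integral_div, intervalIntegral.integral_add,
    intervalIntegral.integral_add, integral_inner, integral_inner, integral_abs_inner,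
    dist_eq_norm]
  · ring
  · exact (continuous_inner_dir _).intervalIntegrable _ _
  · exact (continuous_inner_dir _).intervalIntegrable _ _
  · exact ((continuous_inner_dir _).add (continuous_inner_dir _)).intervalIntegrable _ _
  · exact (continuous_abs_inner_dir _).intervalIntegrable _ _

lemma dir_add_pi (θ : ℝ) : dir (θ + Real.pi) = -dir θ := by
  ext i
  fin_cases i <;> simp [dir, Real.cos_add_pi, Real.sin_add_pi]

/-- Sanity check: the perimeter of a triangle is the sum of its side lengths. -/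
lemma perimeter_triangle (a b c : Plane) :
    perimeter (convexHull ℝ {a, b, c}) = dist a b + dist b c + dist c a := by
  have h : ({a, b, c} : Set Plane) =
      (fun i : Fin 3 => ![a, b, c] i) '' (Finset.univ : Finset (Fin 3)) := by
    ext x
    simp only [mem_insert_iff, mem_singleton_iff, Finset.coe_univ, image_univ, mem_range]
    constructor
    · rintro (rfl | rfl | rfl)
      exacts [⟨0, rfl⟩, ⟨1, rfl⟩, ⟨2, rfl⟩]
    · rintro ⟨i, rfl⟩
      fin_cases i <;> simp
  rw [h, perimeter_hull Finset.univ Finset.univ_nonempty]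
  set g : ℝ → ℝ := fun θ => (Finset.univ : Finset (Fin 3)).sup' Finset.univ_nonempty
      (fun i => ⟪![a, b, c] i, dir θ⟫_ℝ) with hg
  have hcont : Continuous g := continuous_sup_inner _ _ _
  have hmax : ∀ θ, g θ = max (max ⟪a, dir θ⟫_ℝ ⟪b, dir θ⟫_ℝ) ⟪c, dir θ⟫_ℝ := by
    intro θ
    apply le_antisymm
    · apply Finset.sup'_le
      intro i _
      fin_cases i
      · exact (le_max_left _ _).trans (le_max_left _ _)
      · exact (le_max_right _ _).trans (le_max_left _ _)
      · exact le_max_right _ _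
    · exact max_le (max_le
        (Finset.le_sup' (fun i => ⟪![a, b, c] i, dir θ⟫_ℝ) (Finset.mem_univ (0 : Fin 3)))
        (Finset.le_sup' (fun i => ⟪![a, b, c] i, dir θ⟫_ℝ) (Finset.mem_univ (1 : Fin 3))))
        (Finset.le_sup' (fun i => ⟪![a, b, c] i, dir θ⟫_ℝ) (Finset.mem_univ (2 : Fin 3)))
  have hper : Function.Periodic g (2 * Real.pi) := by
    intro θ
    simp only [hmax]
    have : dir (θ + 2 * Real.pi) = dir θ := by
      rw [two_mul, ← add_assoc, dir_add_pi, dir_add_pi, neg_neg]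
    rw [this]
  have hshift : ∫ θ in (0 : ℝ)..(2 * Real.pi), g (θ + Real.pi)
      = ∫ θ in (0 : ℝ)..(2 * Real.pi), g θ := by
    rw [intervalIntegral.integral_comp_add_right g]
    have h2 := hper.intervalIntegral_add_eq (0 + Real.pi) 0
    rw [zero_add (2 * Real.pi)] at h2
    rw [← h2]
    congr 1
    ring
  have hsum : ∀ θ, g θ + g (θ + Real.pi) =
      (|⟪a - b, dir θ⟫_ℝ| + |⟪b - c, dir θ⟫_ℝ| + |⟪c - a, dir θ⟫_ℝ|) / 2 := by
    intro θ
    rw [hmax, hmax, dir_add_pi, inner_neg_right, inner_neg_right, inner_neg_right,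
      inner_sub_left, inner_sub_left, inner_sub_left]
    generalize ⟪a, dir θ⟫_ℝ = x
    generalize ⟪b, dir θ⟫_ℝ = y
    generalize ⟪c, dir θ⟫_ℝ = z
    rcases le_total x y with h1 | h1 <;> rcases le_total y z with h2 | h2 <;>
      rcases le_total z x with h3 | h3 <;>
      simp only [max_def, abs_of_nonneg, abs_of_nonpos, sub_nonneg, sub_nonpos, h1, h2, h3] <;>
      split_ifs <;> linarith
  have h4 : ∫ θ in (0 : ℝ)..(2 * Real.pi), (g θ + g (θ + Real.pi)) =
      2 * (dist a b + dist b c + dist c a) := by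
    simp only [hsum]
    rw [intervalIntegral.integral_div, intervalIntegral.integral_add,
      intervalIntegral.integral_add, integral_abs_inner, integral_abs_inner, integral_abs_inner,
      dist_eq_norm, dist_eq_norm, dist_eq_norm]
    · ring
    · exact (continuous_abs_inner_dir _).intervalIntegrable _ _
    · exact (continuous_abs_inner_dir _).intervalIntegrable _ _
    · exact ((continuous_abs_inner_dir _).add
        (continuous_abs_inner_dir _)).intervalIntegrable _ _
    · exact (continuous_abs_inner_dir _).intervalIntegrable _ _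
  have hcont2 : Continuous fun θ => g (θ + Real.pi) := hcont.comp (by fun_prop)
  rw [intervalIntegral.integral_add (hcont.intervalIntegrable _ _)
    (hcont2.intervalIntegrable _ _), hshift] at h4
  linarith

/-! ### The perimeter process of a walk -/

section walk

variable {Ω : Type} [MeasurableSpace Ω]

lemma measurable_walk {Z : ℕ → Ω → Plane} (hZ : ∀ k, Measurable (Z k)) (n : ℕ) :
    Measurable (walk Z n) := by
  unfold walk
  exact Finset.measurable_sum _ fun k _ => hZ k

lemma measurable_hullPerimeter {Z : ℕ → Ω → Plane} (hZ : ∀ k, Measurable (Z k)) (n : ℕ) :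
    Measurable (hullPerimeter Z n) := by
  have hs : (Finset.Iic n).Nonempty := ⟨0, by simp⟩
  set G : Ω × ℝ → ℝ :=
    (Finset.Iic n).sup' hs (fun i (p : Ω × ℝ) => ⟪walk Z i p.1, dir p.2⟫_ℝ) with hG
  have hGm : Measurable G := by
    apply Finset.measurable_sup' hs
    intro i _
    have h1 : Measurable fun p : Ω × ℝ => walk Z i p.1 :=
      (measurable_walk hZ i).comp measurable_fst
    simp only [inner_dir]
    have h2 : ∀ j : Fin 2, Measurable fun p : Ω × ℝ => (walk Z i p.1) j := fun j =>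
      (EuclideanSpace.proj (𝕜 := ℝ) j).continuous.measurable.comp h1
    exact ((h2 0).mul (Real.measurable_cos.comp measurable_snd)).add
      ((h2 1).mul (Real.measurable_sin.comp measurable_snd))
  have h : hullPerimeter Z n = fun ω => ∫ θ in Set.Ioc (0 : ℝ) (2 * Real.pi), G (ω, θ) := by
    funext ω
    unfold hullPerimeter
    rw [← Finset.coe_Iic, perimeter_hull (Finset.Iic n) hs,
      intervalIntegral.integral_of_le (by positivity)]
    simp only [hG, Finset.sup'_apply]
  rw [h]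
  exact (hGm.stronglyMeasurable.integral_prod_right').measurable

end walk

/-! ### The walk with steps `(1, Y)` -/

section example_walk

variable {Ω : Type} (Y : ℕ → Ω → ℝ)

/-- The steps `Z_k = (1, Y_k)`. -/
noncomputable def step (k : ℕ) (ω : Ω) : Plane := !₂[1, Y k ω]

lemma walk_zero (n : ℕ) (ω : Ω) : (walk (step Y) n ω) 0 = n := by
  simp [walk, step]

lemma walk_one (n : ℕ) (ω : Ω) : (walk (step Y) n ω) 1 = ∑ k ∈ Finset.range n, Y k ω := by
  simp [walk, step]

lemma norm_lower (x : Plane) : √2 * (x 0 + x 1) ≤ 2 * ‖x‖ := by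
  have h1 : x 0 + x 1 = ⟪x, !₂[1, 1]⟫_ℝ := by
    simp [PiLp.inner_apply, Fin.sum_univ_two]
  have h2 : ‖(!₂[1, 1] : Plane)‖ = √2 := by
    rw [EuclideanSpace.norm_eq, Fin.sum_univ_two]
    norm_num
  have h3 := real_inner_le_norm x !₂[1, 1]
  rw [h2, ← h1] at h3
  calc √2 * (x 0 + x 1) ≤ √2 * (‖x‖ * √2) := by gcongr
    _ = (√2 * √2) * ‖x‖ := by ring
    _ = 2 * ‖x‖ := by rw [Real.mul_self_sqrt (by norm_num)]

lemma hullPerimeter_lower_norm (n : ℕ) (ω : Ω) :
    2 * ‖walk (step Y) n ω‖ ≤ hullPerimeter (step Y) n ω := by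
  unfold hullPerimeter
  rw [← Finset.coe_Iic]
  have h := two_mul_dist_le (Finset.Iic n) (fun k => walk (step Y) k ω) (i := n) (j := 0)
    (by simp) (by simp)
  have h0 : walk (step Y) 0 ω = 0 := by simp [walk]
  rwa [h0, sub_zero] at h

lemma hullPerimeter_nonneg (n : ℕ) (ω : Ω) : 0 ≤ hullPerimeter (step Y) n ω :=
  le_trans (by positivity) (hullPerimeter_lower_norm Y n ω)

lemma hullPerimeter_lower (n : ℕ) (ω : Ω) :
    √2 * (n + ∑ k ∈ Finset.range n, Y k ω) ≤ hullPerimeter (step Y) n ω := by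
  have h := norm_lower (walk (step Y) n ω)
  rw [walk_zero, walk_one] at h
  exact h.trans (hullPerimeter_lower_norm Y n ω)

/-- An upper bound for the absolute values of the second coordinates of the walk. -/
noncomputable def maxBound (n : ℕ) (ω : Ω) : ℝ :=
  √(∑ i ∈ Finset.Iic n, (∑ k ∈ Finset.range i, Y k ω) ^ 2)

lemma hullPerimeter_upper (n : ℕ) (ω : Ω) :
    hullPerimeter (step Y) n ω ≤ 2 * n + 4 * maxBound Y n ω := by
  unfold hullPerimeter
  rw [← Finset.coe_Iic]
  apply perimeter_le _ ⟨0, by simp⟩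
  · intro i _
    rw [walk_zero]
    positivity
  · intro i hi
    rw [walk_zero]
    exact Nat.cast_le.mpr (Finset.mem_Iic.mp hi)
  · intro i hi
    rw [walk_one]
    apply Real.abs_le_sqrt
    exact Finset.single_le_sum (f := fun i => (∑ k ∈ Finset.range i, Y k ω) ^ 2)
      (fun j _ => sq_nonneg _) hi

end example_walk

/-! ### The variance bound -/

section variance

variable {Ω : Type} [MeasurableSpace Ω] {P : Measure Ω} [IsProbabilityMeasure P] {Y : ℕ → Ω → ℝ}
  {σ : ℝ}

lemma measurable_step (hm : ∀ k, Measurable (Y k)) (k : ℕ) : Measurable (step Y k) := by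
  unfold step
  have : Measurable fun ω => (![1, Y k ω] : Fin 2 → ℝ) := by
    rw [measurable_pi_iff]
    intro i
    fin_cases i
    · exact measurable_const
    · exact hm k
  exact (WithLp.measurable_toLp 2 _).comp this

lemma measurable_maxBound (hm : ∀ k, Measurable (Y k)) (n : ℕ) : Measurable (maxBound Y n) := by
  unfold maxBound
  apply Measurable.sqrt
  apply Finset.measurable_sum
  intro i _
  apply Measurable.pow_const
  apply Finset.measurable_sum
  intro k _
  exact hm k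

lemma sq_maxBound (n : ℕ) (ω : Ω) :
    maxBound Y n ω ^ 2 = ∑ i ∈ Finset.Iic n, (∑ k ∈ Finset.range i, Y k ω) ^ 2 :=
  Real.sq_sqrt (Finset.sum_nonneg fun _ _ => sq_nonneg _)

lemma memLp_sum (hL : ∀ k, MemLp (Y k) 2 P) (i : ℕ) :
    MemLp (fun ω => ∑ k ∈ Finset.range i, Y k ω) 2 P :=
  memLp_finsetSum _ fun k _ => hL k

lemma integrable_sq_sum (hL : ∀ k, MemLp (Y k) 2 P) (i : ℕ) :
    Integrable (fun ω => (∑ k ∈ Finset.range i, Y k ω) ^ 2) P :=
  (memLp_sum hL i).integrable_sq

lemma memLp_maxBound (hm : ∀ k, Measurable (Y k)) (hL : ∀ k, MemLp (Y k) 2 P) (n : ℕ) :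
    MemLp (maxBound Y n) 2 P := by
  rw [memLp_two_iff_integrable_sq (measurable_maxBound hm n).aestronglyMeasurable]
  simp only [sq_maxBound]
  exact integrable_finsetSum _ fun i _ => integrable_sq_sum hL i

lemma integral_sq_sum (hL : ∀ k, MemLp (Y k) 2 P) (hind : iIndepFun Y P)
    (hmean : ∀ k, ∫ ω, Y k ω ∂P = 0) (hvar : ∀ k, Var[Y k; P] ≤ σ ^ 2) (i : ℕ) :
    ∫ ω, (∑ k ∈ Finset.range i, Y k ω) ^ 2 ∂P ≤ i * σ ^ 2 := by
  have h1 : Var[∑ k ∈ Finset.range i, Y k; P] = ∑ k ∈ Finset.range i, Var[Y k; P] :=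
    IndepFun.variance_sum (fun k _ => hL k) fun a _ b _ hab => hind.indepFun hab
  have h2 : ∫ ω, (∑ k ∈ Finset.range i, Y k) ω ∂P = 0 := by
    simp only [Finset.sum_apply]
    rw [integral_finsetSum _ fun k _ => (hL k).integrable (by norm_num)]
    simp [hmean]
  have h3 : MemLp (∑ k ∈ Finset.range i, Y k) 2 P := memLp_finsetSum' _ fun k _ => hL k
  rw [variance_of_integral_eq_zero h3.aemeasurable h2] at h1
  simp only [Finset.sum_apply] at h1
  rw [h1]
  calc ∑ k ∈ Finset.range i, Var[Y k; P] ≤ ∑ k ∈ Finset.range i, σ ^ 2 :=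
        Finset.sum_le_sum fun k _ => hvar k
    _ = i * σ ^ 2 := by simp

lemma sum_Iic_le (n : ℕ) : ∑ i ∈ Finset.Iic n, (i : ℝ) ≤ (n : ℝ) ^ 2 := by
  have : ∑ i ∈ Finset.range (n + 1), (i : ℝ) ≤ (n : ℝ) ^ 2 := by
    induction n with
    | zero => simp
    | succ n ih =>
      rw [Finset.sum_range_succ]
      push_cast
      nlinarith
  rwa [Nat.range_succ_eq_Iic] at this

lemma integral_maxBound_le (hm : ∀ k, Measurable (Y k)) (hL : ∀ k, MemLp (Y k) 2 P)
    (hind : iIndepFun Y P) (hmean : ∀ k, ∫ ω, Y k ω ∂P = 0) (hσ : 0 ≤ σ)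
    (hvar : ∀ k, Var[Y k; P] ≤ σ ^ 2) (n : ℕ) : ∫ ω, maxBound Y n ω ∂P ≤ n * σ := by
  have h1 : ∫ ω, maxBound Y n ω ^ 2 ∂P ≤ (n * σ) ^ 2 := by
    simp only [sq_maxBound]
    rw [integral_finsetSum _ fun i _ => integrable_sq_sum hL i]
    calc ∑ i ∈ Finset.Iic n, ∫ ω, (∑ k ∈ Finset.range i, Y k ω) ^ 2 ∂P
        ≤ ∑ i ∈ Finset.Iic n, (i : ℝ) * σ ^ 2 :=
          Finset.sum_le_sum fun i _ => integral_sq_sum hL hind hmean hvar i
      _ = (∑ i ∈ Finset.Iic n, (i : ℝ)) * σ ^ 2 := by rw [Finset.sum_mul]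
      _ ≤ (n : ℝ) ^ 2 * σ ^ 2 := mul_le_mul_of_nonneg_right (sum_Iic_le n) (sq_nonneg _)
      _ = (n * σ) ^ 2 := by ring
  have h2 : (∫ ω, maxBound Y n ω ∂P) ^ 2 ≤ ∫ ω, maxBound Y n ω ^ 2 ∂P := by
    have h3 := variance_nonneg (maxBound Y n) P
    rw [variance_eq_sub (memLp_maxBound hm hL n)] at h3
    simp only [Pi.pow_apply] at h3
    linarith
  exact abs_le_of_sq_le_sq' (h2.trans h1) (by positivity) |>.2

lemma memLp_upper (hm : ∀ k, Measurable (Y k)) (hL : ∀ k, MemLp (Y k) 2 P) (n : ℕ) :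
    MemLp (fun ω => 2 * (n : ℝ) + 4 * maxBound Y n ω) 2 P := by
  have h1 : MemLp (fun _ : Ω => 2 * (n : ℝ)) 2 P := memLp_const _
  have h2 : MemLp (fun ω => 4 * maxBound Y n ω) 2 P := (memLp_maxBound hm hL n).const_mul 4
  exact h1.add h2

lemma memLp_hullPerimeter (hm : ∀ k, Measurable (Y k)) (hL : ∀ k, MemLp (Y k) 2 P) (n : ℕ) :
    MemLp (hullPerimeter (step Y) n) 2 P := by
  refine (memLp_upper hm hL n).mono
    (measurable_hullPerimeter (measurable_step hm) n).aestronglyMeasurable ?_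
  refine Eventually.of_forall fun ω => ?_
  have h2 := hullPerimeter_nonneg Y n ω
  have h3 := hullPerimeter_upper Y n ω
  rw [Real.norm_of_nonneg h2, Real.norm_of_nonneg (h2.trans h3)]
  exact h3

lemma integral_hullPerimeter_le (hm : ∀ k, Measurable (Y k)) (hL : ∀ k, MemLp (Y k) 2 P)
    (hind : iIndepFun Y P) (hmean : ∀ k, ∫ ω, Y k ω ∂P = 0) (hσ : 0 ≤ σ)
    (hvar : ∀ k, Var[Y k; P] ≤ σ ^ 2) (n : ℕ) :
    ∫ ω, hullPerimeter (step Y) n ω ∂P ≤ (2 + 4 * σ) * n := by
  have h1 := integral_mono ((memLp_hullPerimeter hm hL n).integrable (by norm_num))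
    ((memLp_upper hm hL n).integrable (by norm_num)) (fun ω => hullPerimeter_upper Y n ω)
  have h2 := integral_maxBound_le hm hL hind hmean hσ hvar n
  have h3 : ∫ ω, (2 * (n : ℝ) + 4 * maxBound Y n ω) ∂P
      = 2 * n + 4 * ∫ ω, maxBound Y n ω ∂P := by
    rw [integral_add (integrable_const _)
      (((memLp_maxBound hm hL n).const_mul 4).integrable (by norm_num)),
      integral_const_mul 4 (maxBound Y n)]
    simp
  calc ∫ ω, hullPerimeter (step Y) n ω ∂P ≤ ∫ ω, (2 * (n : ℝ) + 4 * maxBound Y n ω) ∂P := h1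
    _ = 2 * n + 4 * ∫ ω, maxBound Y n ω ∂P := h3
    _ ≤ (2 + 4 * σ) * n := by nlinarith

/-! #### The exceptional events -/

/-- The indicator of `[n, ∞)`. -/
noncomputable def cut (n : ℕ) (y : ℝ) : ℝ := (Set.Ici (n : ℝ)).indicator 1 y

lemma measurable_cut (n : ℕ) : Measurable (cut n) :=
  (measurable_one).indicator measurableSet_Ici

lemma cut_eq (n : ℕ) (y : ℝ) : cut n y = 0 ∨ (cut n y = 1 ∧ (n : ℝ) ≤ y) := by
  unfold cut
  by_cases h : (n : ℝ) ≤ y
  · right
    exact ⟨by simp [h], h⟩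
  · left
    simp [h]

lemma cut_nonneg (n : ℕ) (y : ℝ) : 0 ≤ cut n y := by
  rcases cut_eq n y with h | h
  · rw [h]
  · rw [h.1]
    norm_num

lemma cut_sq (n : ℕ) (y : ℝ) : cut n y ^ 2 = cut n y := by
  rcases cut_eq n y with h | h
  · rw [h]
    norm_num
  · rw [h.1]
    norm_num

lemma memLp_cut (hm : ∀ k, Measurable (Y k)) (n t : ℕ) :
    MemLp (fun ω => cut n (Y t ω)) 2 P := by
  have hmeas : Measurable fun ω => cut n (Y t ω) := (measurable_cut n).comp (hm t)
  refine MemLp.of_bound hmeas.aestronglyMeasurable 1 (Eventually.of_forall fun ω => ?_)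
  rw [Real.norm_of_nonneg (cut_nonneg _ _)]
  rcases cut_eq n (Y t ω) with h | h
  · rw [h]
    norm_num
  · rw [h.1]

lemma variance_cut_le (hm : ∀ k, Measurable (Y k)) (n t : ℕ) :
    Var[fun ω => cut n (Y t ω); P] ≤ ∫ ω, cut n (Y t ω) ∂P := by
  rw [variance_eq_sub (memLp_cut hm n t)]
  simp only [Pi.pow_apply, cut_sq]
  linarith [sq_nonneg (∫ ω, cut n (Y t ω) ∂P)]

lemma integral_mul_cut_of_ne (hm : ∀ k, Measurable (Y k))
    (hind : iIndepFun Y P) (hmean : ∀ k, ∫ ω, Y k ω ∂P = 0) (n : ℕ) {k t : ℕ} (hkt : k ≠ t) :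
    ∫ ω, Y k ω * cut n (Y t ω) ∂P = 0 := by
  have h1 : (Y k) ⟂ᵢ[P] (fun ω => cut n (Y t ω)) :=
    (hind.indepFun hkt).comp measurable_id (measurable_cut n)
  have h2 := h1.integral_mul_eq_mul_integral (hm k).aestronglyMeasurable
    ((measurable_cut n).comp (hm t)).aestronglyMeasurable
  simp only [Pi.mul_apply] at h2
  rw [h2, hmean k, zero_mul]

lemma le_integral_mul_cut (hm : ∀ k, Measurable (Y k)) (hL : ∀ k, MemLp (Y k) 2 P) (n t : ℕ) :
    n * ∫ ω, cut n (Y t ω) ∂P ≤ ∫ ω, Y t ω * cut n (Y t ω) ∂P := by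
  rw [← integral_const_mul]
  apply integral_mono
  · exact ((memLp_cut hm n t).integrable (by norm_num)).const_mul _
  · exact (hL t).integrable_mul (memLp_cut hm n t)
  · intro ω
    rcases cut_eq n (Y t ω) with h | h
    · simp [h]
    · simp only [h.1]
      linarith [h.2]

lemma le_integral_sum_mul_cut (hm : ∀ k, Measurable (Y k)) (hL : ∀ k, MemLp (Y k) 2 P)
    (hind : iIndepFun Y P) (hmean : ∀ k, ∫ ω, Y k ω ∂P = 0) {n t : ℕ} (ht : t < n) :
    n * ∫ ω, cut n (Y t ω) ∂P ≤ ∫ ω, (∑ k ∈ Finset.range n, Y k ω) * cut n (Y t ω) ∂P := by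
  simp only [Finset.sum_mul]
  have hint : ∀ k ∈ Finset.range n, Integrable (fun ω => Y k ω * cut n (Y t ω)) P :=
    fun k _ => (hL k).integrable_mul (memLp_cut hm n t)
  rw [integral_finsetSum _ hint, Finset.sum_eq_single_of_mem t (Finset.mem_range.mpr ht)]
  · exact le_integral_mul_cut hm hL n t
  · intro k _ hk
    exact integral_mul_cut_of_ne hm hind hmean n hk

lemma cov_lower (hm : ∀ k, Measurable (Y k)) (hL : ∀ k, MemLp (Y k) 2 P)
    (hind : iIndepFun Y P) (hmean : ∀ k, ∫ ω, Y k ω ∂P = 0) (hσ : 0 ≤ σ)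
    (hvar : ∀ k, Var[Y k; P] ≤ σ ^ 2) {n t : ℕ} (ht : t < n) :
    (2 * √2 - 2 - 4 * σ) * n * (∫ ω, cut n (Y t ω) ∂P) ≤
      cov[hullPerimeter (step Y) n, fun ω => cut n (Y t ω); P] := by
  rw [covariance_eq_sub (memLp_hullPerimeter hm hL n) (memLp_cut hm n t)]
  simp only [Pi.mul_apply]
  have hp : 0 ≤ ∫ ω, cut n (Y t ω) ∂P := integral_nonneg fun ω => cut_nonneg _ _
  have h1 : √2 * (n * (∫ ω, cut n (Y t ω) ∂P) + n * (∫ ω, cut n (Y t ω) ∂P)) ≤
      ∫ ω, hullPerimeter (step Y) n ω * cut n (Y t ω) ∂P := by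
    have h2 : ∫ ω, √2 * (n * cut n (Y t ω) +
        (∑ k ∈ Finset.range n, Y k ω) * cut n (Y t ω)) ∂P ≤
        ∫ ω, hullPerimeter (step Y) n ω * cut n (Y t ω) ∂P := by
      apply integral_mono
      · exact ((((memLp_cut hm n t).integrable (by norm_num)).const_mul _).add
          ((memLp_sum hL n).integrable_mul (memLp_cut hm n t))).const_mul _
      · exact (memLp_hullPerimeter hm hL n).integrable_mul (memLp_cut hm n t)
      · intro ω
        have h3 := mul_le_mul_of_nonneg_right (hullPerimeter_lower Y n ω)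
          (cut_nonneg n (Y t ω))
        simp only
        linarith
    have h4 : ∫ ω, √2 * (n * cut n (Y t ω) +
        (∑ k ∈ Finset.range n, Y k ω) * cut n (Y t ω)) ∂P =
        √2 * (n * (∫ ω, cut n (Y t ω) ∂P) +
          ∫ ω, (∑ k ∈ Finset.range n, Y k ω) * cut n (Y t ω) ∂P) := by
      rw [integral_const_mul, integral_add, integral_const_mul]
      · exact ((memLp_cut hm n t).integrable (by norm_num)).const_mul _
      · exact (memLp_sum hL n).integrable_mul (memLp_cut hm n t)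
    rw [h4] at h2
    refine le_trans ?_ h2
    gcongr
    exact le_integral_sum_mul_cut hm hL hind hmean ht
  have h5 := mul_le_mul_of_nonneg_right
    (integral_hullPerimeter_le hm hL hind hmean hσ hvar n) hp
  linarith

/-- The main bound: `n · ℙ(Y ≥ n) · (2√2 - 2 - 4σ)² n² ≤ Var L_n`. -/
lemma variance_lower (hm : ∀ k, Measurable (Y k)) (hL : ∀ k, MemLp (Y k) 2 P)
    (hind : iIndepFun Y P) (hmean : ∀ k, ∫ ω, Y k ω ∂P = 0) (hσ : 0 ≤ σ)
    (hvar : ∀ k, Var[Y k; P] ≤ σ ^ 2) (hsmall : 0 ≤ 2 * √2 - 2 - 4 * σ) {n : ℕ} {p : ℝ}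
    (hp : ∀ t, ∫ ω, cut n (Y t ω) ∂P = p) :
    n * p * ((2 * √2 - 2 - 4 * σ) * n) ^ 2 ≤ Var[hullPerimeter (step Y) n; P] := by
  set b : ℝ := (2 * √2 - 2 - 4 * σ) * n with hb
  have hb0 : 0 ≤ b := by positivity
  set B : ℕ → Ω → ℝ := fun t ω => cut n (Y t ω) with hB
  have hBL : ∀ t, MemLp (B t) 2 P := fun t => memLp_cut hm n t
  set Φ : Ω → ℝ := ∑ t ∈ Finset.range n, B t with hΦ
  have hΦL : MemLp Φ 2 P := memLp_finsetSum' _ fun t _ => hBL t
  have hX := memLp_hullPerimeter hm hL n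
  have hBind : iIndepFun B P := hind.comp (fun _ => cut n) (fun _ => measurable_cut n)
  have h1 : Var[Φ; P] ≤ n * p := by
    rw [hΦ, IndepFun.variance_sum (fun t _ => hBL t) fun a _ c _ hac => hBind.indepFun hac]
    calc ∑ t ∈ Finset.range n, Var[B t; P] ≤ ∑ t ∈ Finset.range n, p :=
          Finset.sum_le_sum fun t _ => (variance_cut_le hm n t).trans (hp t).le
      _ = n * p := by simp
  have h2 : n * (b * p) ≤ cov[hullPerimeter (step Y) n, Φ; P] := by
    rw [hΦ, covariance_sum_right' (fun t _ => hBL t) hX]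
    calc (n : ℝ) * (b * p) = ∑ t ∈ Finset.range n, b * p := by simp
      _ ≤ ∑ t ∈ Finset.range n, cov[hullPerimeter (step Y) n, B t; P] := by
          refine Finset.sum_le_sum fun t ht => ?_
          have h3 := cov_lower hm hL hind hmean hσ hvar (Finset.mem_range.mp ht)
          rw [hp t] at h3
          exact h3
  have h3 := variance_nonneg (hullPerimeter (step Y) n - fun ω => b * Φ ω) P
  rw [variance_sub hX (hΦL.const_mul b), variance_const_mul, covariance_const_mul_right] at h3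
  have h4 : 2 * (b * cov[hullPerimeter (step Y) n, Φ; P]) ≥ 2 * (b * (n * (b * p))) := by
    gcongr
  have h5 : b ^ 2 * Var[Φ; P] ≤ b ^ 2 * (n * p) := by gcongr
  nlinarith

end variance

/-! ### A heavy-tailed law -/

section law

/-- The uniform distribution on `(0, 1)`. -/
noncomputable def unif : Measure ℝ := volume.restrict (Set.Ioo 0 1)

instance : IsProbabilityMeasure unif := ⟨by simp [unif]⟩

variable {γ : ℝ}

lemma integrable_rpow_unif {r : ℝ} (hr : -1 < r) : Integrable (fun u : ℝ => u ^ r) unif := by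
  have h := intervalIntegral.intervalIntegrable_rpow' (a := 0) (b := 1) hr
  rw [intervalIntegrable_iff_integrableOn_Ioo_of_le zero_le_one] at h
  exact h

lemma integral_rpow_unif {r : ℝ} (hr : -1 < r) : ∫ u, u ^ r ∂unif = 1 / (r + 1) := by
  have h := integral_rpow (a := 0) (b := 1) (r := r) (Or.inl hr)
  rw [intervalIntegral.integral_of_le zero_le_one, integral_Ioc_eq_integral_Ioo] at h
  unfold unif
  rw [h, Real.one_rpow, Real.zero_rpow (by linarith)]
  ring

/-- `V = u^(-γ) - 1/(1-γ)`. -/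
noncomputable def vfun (γ u : ℝ) : ℝ := u ^ (-γ) - 1 / (1 - γ)

lemma measurable_vfun (γ : ℝ) : Measurable (vfun γ) := by
  unfold vfun
  fun_prop

lemma integral_vfun (hγ : γ < 1) : ∫ u, vfun γ u ∂unif = 0 := by
  unfold vfun
  rw [integral_sub (integrable_rpow_unif (by linarith)) (integrable_const _),
    integral_rpow_unif (by linarith)]
  simp
  ring

lemma sq_vfun {u : ℝ} (hu : 0 < u) (γ : ℝ) :
    vfun γ u ^ 2 = u ^ (-(2 * γ)) - 2 / (1 - γ) * u ^ (-γ) + (1 / (1 - γ)) ^ 2 := by
  unfold vfun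
  have : u ^ (-(2 * γ)) = u ^ (-γ) * u ^ (-γ) := by
    rw [← Real.rpow_add hu]
    ring_nf
  rw [this]
  ring

lemma sq_vfun_ae (γ : ℝ) : (fun u => vfun γ u ^ 2) =ᵐ[unif]
    fun u => u ^ (-(2 * γ)) - 2 / (1 - γ) * u ^ (-γ) + (1 / (1 - γ)) ^ 2 := by
  unfold unif
  filter_upwards [ae_restrict_mem measurableSet_Ioo] with u hu
  exact sq_vfun hu.1 γ

lemma memLp_vfun (hγ0 : 0 < γ) (hγ : γ < 1 / 2) : MemLp (vfun γ) 2 unif := by
  rw [memLp_two_iff_integrable_sq (measurable_vfun γ).aestronglyMeasurable]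
  rw [integrable_congr (sq_vfun_ae γ)]
  exact ((integrable_rpow_unif (by linarith)).sub
    ((integrable_rpow_unif (by linarith)).const_mul _)).add (integrable_const _)

lemma integral_sq_vfun (hγ0 : 0 < γ) (hγ : γ < 1 / 2) :
    ∫ u, vfun γ u ^ 2 ∂unif = γ ^ 2 / ((1 - 2 * γ) * (1 - γ) ^ 2) := by
  rw [integral_congr_ae (sq_vfun_ae γ)]
  have i1 : Integrable (fun u : ℝ => u ^ (-(2 * γ))) unif := integrable_rpow_unif (by linarith)
  have i2 : Integrable (fun u : ℝ => 2 / (1 - γ) * u ^ (-γ)) unif :=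
    (integrable_rpow_unif (by linarith)).const_mul _
  have i3 : Integrable (fun u : ℝ => u ^ (-(2 * γ)) - 2 / (1 - γ) * u ^ (-γ)) unif := i1.sub i2
  rw [integral_add i3 (integrable_const _), integral_sub i1 i2, integral_const_mul,
    integral_rpow_unif (by linarith), integral_rpow_unif (by linarith)]
  simp only [integral_const, probReal_univ, smul_eq_mul, one_mul]
  have h1 : 1 - 2 * γ ≠ 0 := by linarith
  have h2 : 1 - γ ≠ 0 := by linarith
  have h3 : -(2 * γ) + 1 ≠ 0 := by linarith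
  have h4 : -γ + 1 ≠ 0 := by linarith
  have h5 : -(2 * γ) + 1 = 1 - 2 * γ := by ring
  have h6 : -γ + 1 = 1 - γ := by ring
  rw [h5, h6]
  field_simp
  ring

lemma le_integral_cut (hγ0 : 0 < γ) (hγ : γ < 1) {ε : ℝ} (hε : 0 < ε) {n : ℕ} (hn : 1 ≤ n) :
    (1 / ε + 1 / (1 - γ)) ^ (-(1 / γ)) * (n : ℝ) ^ (-(1 / γ)) ≤
      ∫ u, cut n (ε * vfun γ u) ∂unif := by
  have hn' : (1 : ℝ) ≤ n := by exact_mod_cast hn
  set C : ℝ := 1 / ε + 1 / (1 - γ) with hC
  have hCγ : 1 < 1 / (1 - γ) := by
    rw [lt_div_iff₀ (by linarith)]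
    linarith
  have hC1 : 1 < C := by
    have : 0 < 1 / ε := by positivity
    linarith
  have hCn : 1 < C * n := by nlinarith
  rw [← Real.mul_rpow (by linarith) (by linarith)]
  set q : ℝ := (C * n) ^ (-(1 / γ)) with hq
  have hq0 : 0 < q := Real.rpow_pos_of_pos (by linarith) _
  have hq1 : q < 1 := Real.rpow_lt_one_of_one_lt_of_neg hCn (by
    have : 0 < 1 / γ := by positivity
    linarith)
  have h1 : ∫ u, (Set.Ioo (0 : ℝ) q).indicator (1 : ℝ → ℝ) u ∂unif = q := by
    rw [integral_indicator_one measurableSet_Ioo]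
    simp only [unif, Measure.real, Measure.restrict_apply measurableSet_Ioo]
    have : Set.Ioo (0 : ℝ) q ∩ Set.Ioo 0 1 = Set.Ioo 0 q := by
      apply Set.inter_eq_left.mpr
      exact Set.Ioo_subset_Ioo le_rfl hq1.le
    rw [this]
    simp [hq0.le]
  rw [← h1]
  apply integral_mono
  · apply Integrable.indicator (integrable_const _) measurableSet_Ioo
  · have hm : Measurable fun u => cut n (ε * vfun γ u) :=
      (measurable_cut n).comp ((measurable_vfun γ).const_mul ε)
    refine Integrable.of_bound hm.aestronglyMeasurable 1 (Eventually.of_forall fun u => ?_)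
    rw [Real.norm_of_nonneg (cut_nonneg _ _)]
    rcases cut_eq n (ε * vfun γ u) with h | h
    · rw [h]
      norm_num
    · rw [h.1]
  · intro u
    by_cases hu : u ∈ Set.Ioo (0 : ℝ) q
    · simp only [Set.indicator_of_mem hu, Pi.one_apply]
      have h2 : C * n ≤ u ^ (-γ) := by
        have h3 : q ^ (-γ) = C * n := by
          rw [hq, ← Real.rpow_mul (by linarith)]
          have : -(1 / γ) * -γ = 1 := by field_simp
          rw [this, Real.rpow_one]
        rw [← h3]
        exact Real.rpow_le_rpow_of_nonpos hu.1 hu.2.le (by linarith)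
      have h4 : (n : ℝ) ≤ ε * vfun γ u := by
        unfold vfun
        calc (n : ℝ) = ε * (1 / ε * n) := by field_simp
          _ ≤ ε * (C * n - 1 / (1 - γ)) := by
            apply mul_le_mul_of_nonneg_left _ hε.le
            rw [hC]
            nlinarith
          _ ≤ ε * (u ^ (-γ) - 1 / (1 - γ)) := by gcongr
      unfold cut
      rw [Set.indicator_of_mem (Set.mem_Ici.mpr h4)]
      simp
    · rw [Set.indicator_of_notMem hu]
      exact cut_nonneg _ _

end law

/-! ### The counterexample -/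

lemma integrable_step {Ω : Type} [MeasurableSpace Ω] {P : Measure Ω} [IsProbabilityMeasure P]
    {Y : ℕ → Ω → ℝ} (hm : ∀ k, Measurable (Y k)) (hL : ∀ k, MemLp (Y k) 2 P) (k : ℕ) :
    MemLp (step Y k) 2 P := by
  have h1 : MemLp (fun ω => 1 + |Y k ω|) 2 P := by
    have h2 : MemLp (fun _ : Ω => (1 : ℝ)) 2 P := memLp_const _
    exact h2.add (hL k).abs
  refine h1.mono (measurable_step hm k).aestronglyMeasurable (Eventually.of_forall fun ω => ?_)
  rw [Real.norm_of_nonneg (by positivity), EuclideanSpace.norm_eq, Fin.sum_univ_two]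
  apply Real.sqrt_le_iff.mpr
  refine ⟨by positivity, ?_⟩
  simp only [step, Real.norm_eq_abs, sq_abs]
  simp
  nlinarith [abs_nonneg (Y k ω), sq_abs (Y k ω)]

lemma drift_step {Ω : Type} [MeasurableSpace Ω] {P : Measure Ω} [IsProbabilityMeasure P]
    {Y : ℕ → Ω → ℝ} (hm : ∀ k, Measurable (Y k)) (hL : ∀ k, MemLp (Y k) 2 P)
    (hmean : ∀ k, ∫ ω, Y k ω ∂P = 0) (k : ℕ) : drift (step Y k) P = !₂[1, 0] := by
  have hint : Integrable (step Y k) P := (integrable_step hm hL k).integrable (by norm_num)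
  ext i
  have h : (drift (step Y k) P) i = ∫ ω, (step Y k ω) i ∂P := by
    have := (EuclideanSpace.proj i : Plane →L[ℝ] ℝ).integral_comp_comm hint
    exact this.symm
  rw [h]
  fin_cases i
  · simp [step]
  · simp [step, hmean]

lemma tendsto_of_lower {α c : ℝ} (hα : 0 < α) (hc : 0 < c) {v : ℕ → ℝ}
    (hv : ∀ n : ℕ, 1 ≤ n → c * (n : ℝ) ^ α ≤ v n) :
    Tendsto (fun n : ℕ => v n / Real.log n) atTop atTop := by
  have h1 : Tendsto (fun x : ℝ => x ^ α / Real.log x) atTop atTop := by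
    have h2 : Tendsto (fun x : ℝ => Real.log x / x ^ α) atTop (𝓝 0) :=
      (isLittleO_log_rpow_atTop hα).tendsto_div_nhds_zero
    have h3 : Tendsto (fun x : ℝ => Real.log x / x ^ α) atTop (𝓝[>] 0) := by
      rw [tendsto_nhdsWithin_iff]
      refine ⟨h2, ?_⟩
      filter_upwards [eventually_gt_atTop 1] with x hx
      exact div_pos (Real.log_pos hx) (Real.rpow_pos_of_pos (by linarith) _)
    have h4 := h3.inv_tendsto_nhdsGT_zero
    refine h4.congr fun x => ?_
    simp [inv_div]
  have h5 : Tendsto (fun n : ℕ => c * ((n : ℝ) ^ α / Real.log n)) atTop atTop :=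
    (h1.comp tendsto_natCast_atTop_atTop).const_mul_atTop hc
  refine tendsto_atTop_mono' _ ?_ h5
  filter_upwards [eventually_ge_atTop 2] with n hn
  have hlog : 0 < Real.log n := Real.log_pos (by exact_mod_cast hn)
  have h6 := hv n (by omega)
  rw [← mul_div_assoc]
  gcongr

/-- **Disproof of Q1.** For every `α ∈ (0, 1)` there is a planar random walk with i.i.d.
square-integrable steps, nonzero drift, `σ_∥² = 0` and `σ_⊥² > 0` for which
`Var L_n ≥ c n^α` for all `n ≥ 1` and some `c > 0`; in particular `Var L_n / log n → ∞`. -/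
theorem result (α : ℝ) (hα0 : 0 < α) (hα1 : α < 1) :
    ∃ (Ω : Type) (_ : MeasurableSpace Ω) (P : Measure Ω) (_ : IsProbabilityMeasure P)
      (Z : ℕ → Ω → Plane),
      (∀ k, Measurable (Z k)) ∧ iIndepFun Z P ∧ (∀ k, IdentDistrib (Z k) (Z 0) P P) ∧
      MemLp (Z 0) 2 P ∧ drift (Z 0) P ≠ 0 ∧
      sigmaParSq (Z 0) P = 0 ∧ 0 < sigmaPerpSq (Z 0) P ∧
      (∀ n, MemLp (hullPerimeter Z n) 2 P) ∧
      (∃ c : ℝ, 0 < c ∧ ∀ n : ℕ, 1 ≤ n → c * (n : ℝ) ^ α ≤ Var[hullPerimeter Z n; P]) ∧
      Tendsto (fun n : ℕ => Var[hullPerimeter Z n; P] / Real.log n) atTop atTop := by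
  -- the exponent
  set γ : ℝ := 1 / (3 - α) with hγ
  have hγ0 : 0 < γ := by
    have : 0 < 3 - α := by linarith
    positivity
  have hγ1 : γ < 1 / 2 := by
    rw [hγ]
    apply one_div_lt_one_div_of_lt <;> linarith
  have hγinv : 1 / γ = 3 - α := by
    rw [hγ]
    simp
  -- the law
  set v : ℝ := γ ^ 2 / ((1 - 2 * γ) * (1 - γ) ^ 2) with hv
  have hv0 : 0 < v := by
    have h1 : 0 < 1 - 2 * γ := by linarith
    have h2 : 0 < 1 - γ := by linarith
    positivity
  set ε : ℝ := 1 / (10 * √v) with hε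
  have hε0 : 0 < ε := by positivity
  have hεv : ε ^ 2 * v = (1 / 10) ^ 2 := by
    rw [hε, div_pow, mul_pow, Real.sq_sqrt hv0.le]
    field_simp
  obtain ⟨Ω, mΩ, P, X, hXm, hXlaw, hXind, hP⟩ := exists_iid ℕ unif
  set Y : ℕ → Ω → ℝ := fun k ω => ε * vfun γ (X k ω) with hY
  have hgm : Measurable fun u => ε * vfun γ u := (measurable_vfun γ).const_mul ε
  have hm : ∀ k, Measurable (Y k) := fun k => hgm.comp (hXm k)
  have hind : iIndepFun Y P := hXind.comp (fun _ u => ε * vfun γ u) fun _ => hgm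
  have hgL : MemLp (fun u => ε * vfun γ u) 2 unif := (memLp_vfun hγ0 hγ1).const_mul ε
  have hL : ∀ k, MemLp (Y k) 2 P := by
    intro k
    have h1 : MemLp (fun u => ε * vfun γ u) 2 (P.map (X k)) := by
      rw [(hXlaw k).map_eq]
      exact hgL
    exact h1.comp_of_map (hXm k).aemeasurable
  have hmean : ∀ k, ∫ ω, Y k ω ∂P = 0 := by
    intro k
    have h1 := (hXlaw k).integral_comp (f := fun u => ε * vfun γ u)
      hgm.aestronglyMeasurable
    simp only [Function.comp_def] at h1
    simp only [hY]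
    rw [h1, integral_const_mul, integral_vfun (by linarith), mul_zero]
  have hsq : ∀ k, ∫ ω, Y k ω ^ 2 ∂P = (1 / 10) ^ 2 := by
    intro k
    have h1 := (hXlaw k).integral_comp (f := fun u => (ε * vfun γ u) ^ 2)
      (hgm.pow_const 2).aestronglyMeasurable
    simp only [Function.comp_def] at h1
    simp only [hY]
    rw [h1]
    simp only [mul_pow]
    rw [integral_const_mul, integral_sq_vfun hγ0 hγ1, hεv]
  have hvar : ∀ k, Var[Y k; P] ≤ (1 / 10) ^ 2 := by
    intro k
    rw [variance_of_integral_eq_zero (hm k).aemeasurable (hmean k), hsq k]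
  have hdrift : drift (step Y 0) P = !₂[1, 0] := drift_step hm hL hmean 0
  have hdir : driftDir (step Y 0) P = !₂[1, 0] := by
    have h1 : ‖(!₂[1, 0] : Plane)‖ = 1 := by
      rw [EuclideanSpace.norm_eq, Fin.sum_univ_two]
      simp
    rw [driftDir, hdrift, h1]
    simp
  -- lower bound
  have hsqrt : (1.4 : ℝ) ≤ √2 := by
    apply Real.le_sqrt_of_sq_le
    norm_num
  set κ : ℝ := 2 * √2 - 2 - 4 * (1 / 10) with hκ
  have hκ0 : 0 < κ := by
    rw [hκ]
    linarith
  set c₁ : ℝ := (1 / ε + 1 / (1 - γ)) ^ (-(1 / γ)) with hc₁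
  have hc₁0 : 0 < c₁ := by
    apply Real.rpow_pos_of_pos
    have : 0 < 1 - γ := by linarith
    positivity
  have hlower : ∀ n : ℕ, 1 ≤ n →
      κ ^ 2 * c₁ * (n : ℝ) ^ α ≤ Var[hullPerimeter (step Y) n; P] := by
    intro n hn
    have hn' : (0 : ℝ) < n := by exact_mod_cast hn
    have hp : ∀ t, ∫ ω, cut n (Y t ω) ∂P = ∫ u, cut n (ε * vfun γ u) ∂unif := by
      intro t
      exact (hXlaw t).integral_comp (f := fun u => cut n (ε * vfun γ u))
        ((measurable_cut n).comp hgm).aestronglyMeasurable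
    have h1 := variance_lower hm hL hind hmean (by norm_num) hvar hκ0.le hp
    have h2 := le_integral_cut hγ0 (by linarith) hε0 hn
    refine le_trans ?_ h1
    calc κ ^ 2 * c₁ * (n : ℝ) ^ α
        = n * (c₁ * (n : ℝ) ^ (-(1 / γ))) * (κ * n) ^ 2 := by
          have h3 : (n : ℝ) ^ α = n * (n : ℝ) ^ (-(1 / γ)) * (n : ℝ) ^ 2 := by
            rw [hγinv, ← Real.rpow_natCast, ← Real.rpow_one_add' hn'.le (by linarith),
              ← Real.rpow_add hn']
            congr 1
            push_cast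
            ring
          rw [h3]
          ring
      _ ≤ n * (∫ u, cut n (ε * vfun γ u) ∂unif) * (κ * n) ^ 2 := by gcongr
  have hc : 0 < κ ^ 2 * c₁ := by positivity
  refine ⟨Ω, mΩ, P, hP, step Y, measurable_step hm, ?_, ?_, integrable_step hm hL 0, ?_, ?_, ?_,
    memLp_hullPerimeter hm hL, ⟨_, hc, hlower⟩, tendsto_of_lower hα0 hc hlower⟩
  · -- independence
    have hg : Measurable fun y : ℝ => (!₂[1, y] : Plane) := by
      have : Measurable fun y : ℝ => (![1, y] : Fin 2 → ℝ) := by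
        rw [measurable_pi_iff]
        intro i
        fin_cases i
        · exact measurable_const
        · exact measurable_id
      exact (WithLp.measurable_toLp 2 _).comp this
    exact hind.comp (fun _ y => (!₂[1, y] : Plane)) fun _ => hg
  · -- identical distribution
    intro k
    have hg : Measurable fun u : ℝ => (!₂[1, ε * vfun γ u] : Plane) := by
      have : Measurable fun u : ℝ => (![1, ε * vfun γ u] : Fin 2 → ℝ) := by
        rw [measurable_pi_iff]
        intro i
        fin_cases i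
        · exact measurable_const
        · exact hgm
      exact (WithLp.measurable_toLp 2 _).comp this
    have h1 : IdentDistrib (X k) (X 0) P P :=
      ⟨(hXm k).aemeasurable, (hXm 0).aemeasurable, by
        rw [(hXlaw k).map_eq, (hXlaw 0).map_eq]⟩
    exact h1.comp hg
  · rw [hdrift]
    intro h
    have := congrArg (fun x : Plane => x 0) h
    simp at this
  · unfold sigmaParSq
    rw [hdir, hdrift]
    simp [PiLp.inner_apply, Fin.sum_univ_two, step]
  · unfold sigmaPerpSq
    rw [hdir, hdrift]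
    have h1 : ∀ ω, ⟪step Y 0 ω - !₂[1, 0], rot !₂[1, 0]⟫_ℝ ^ 2 = Y 0 ω ^ 2 := by
      intro ω
      simp [PiLp.inner_apply, Fin.sum_univ_two, step, rot]
    simp only [h1]
    rw [hsq]
    norm_num

end Pool.Agent.Results.MP_1c2560_pr.PerimeterVariance
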